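import Pool.Agent.TH250.Z3.Stm

set_option autoImplicit false

/-! Project Z3, part G4e: the sum of the exponents. -/

open Filter Topology Pool.Agent.TH250.Z3

namespace Pool.Agent.TH511.Z3

noncomputable section

lemma ho_le (b : ℕ) : ho b ≤ ho (b + 1) := by
  rcases b with _ | _ | _ | _ | _ | _ | _ | _ | _ | b <;> simp [ho]

lemma key (n i : ℕ) : 2 * (ho (loc n i).1 * (n / 120)) +
    2 * ((ho ((loc n i).1 + 1) - ho (loc n i).1) * (loc n i).2.1) ≤ i := by
  unfold loc
  split_ifs <;> simp [ho] <;> omega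

/-- the part of the exponent with `log 2` -/
def ta (n b m : ℕ) : ℝ :=
  (n / 120 : ℕ) * Real.log 2 * ((tG b : ℝ) + (m : ℝ) / (n / 120 : ℕ) * ((tG (b + 1) : ℝ) - tG b))

lemma al_eq {C : ℝ} {K n b m : ℕ} (hN : 0 < n / 120) :
    al C K n b m = Real.log C + K * Real.log n + n * PhiG +
      2 * ((2 * (ho b * (n / 120)) + 2 * ((ho (b + 1) - ho b) * m) : ℕ) : ℝ) * Real.log n -
      ta n b m := by
  unfold al la ta
  have hN' : ((n / 120 : ℕ) : ℝ) ≠ 0 := by exact_mod_cast hN.ne'
  generalize n / 120 = N at hN'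
  push_cast [Nat.cast_sub (ho_le b)]
  field_simp
  ring

lemma ta_nonneg (n b m : ℕ) (h : tG b ≤ tG (b + 1)) : 0 ≤ ta n b m := by
  unfold ta
  have hl2 : 0 ≤ Real.log 2 := Real.log_nonneg (by norm_num)
  have : (tG b : ℝ) ≤ tG (b + 1) := by exact_mod_cast h
  have h2 : 0 ≤ (tG (b + 1) : ℝ) - tG b := by linarith
  positivity

lemma al_le {C : ℝ} {K n i : ℕ} (hN : 0 < n / 120) :
    al C K n (loc n i).1 (loc n i).2.1 ≤ Real.log C + K * Real.log n + n * PhiG +
      2 * (i : ℝ) * Real.log n - ta n (loc n i).1 (loc n i).2.1 := by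
  rw [al_eq hN]
  have hl : 0 ≤ Real.log n := Real.log_natCast_nonneg n
  have h := key n i
  have h' : ((2 * (ho (loc n i).1 * (n / 120)) +
    2 * ((ho ((loc n i).1 + 1) - ho (loc n i).1) * (loc n i).2.1) : ℕ) : ℝ) ≤ i := by
    exact_mod_cast h
  have := mul_le_mul_of_nonneg_right h' hl
  linarith

lemma sum_div (s : ℕ) (hs : 0 < s) (N : ℕ) (f : ℕ → ℝ) :
    ∑ i ∈ Finset.range (s * N), f (i / s) = s * ∑ k ∈ Finset.range N, f k := by
  induction N with
  | zero => simp
  | succ N ih =>
    rw [Nat.mul_succ, Finset.sum_range_add, ih, Finset.sum_range_succ, mul_add]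
    congr 1
    have : ∀ x ∈ Finset.range s, f ((s * N + x) / s) = f N := by
      intro x hx
      rw [Finset.mem_range] at hx
      rw [Nat.mul_add_div hs, Nat.div_eq_of_lt hx, add_zero]
    rw [Finset.sum_congr rfl this, Finset.sum_const, Finset.card_range, nsmul_eq_mul]

lemma sum_k (S : ℕ) : 2 * ∑ k ∈ Finset.range S, (k : ℝ) = (S : ℝ) * (S - 1) := by
  induction S with
  | zero => simp
  | succ S ih =>
    rw [Finset.sum_range_succ, mul_add, ih]
    push_cast
    ring

lemma block (s : ℕ) (hs : 0 < s) (N : ℕ) (hN : 0 < N) (t t' : ℝ) :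
    2 * ∑ i ∈ Finset.range (s * N), (t + ((i / s : ℕ) : ℝ) / (N : ℝ) * (t' - t)) =
      s * (N * (t + t') - (t' - t)) := by
  have hN' : (0 : ℝ) < N := by exact_mod_cast hN
  rw [sum_div s hs N (fun k => t + (k : ℝ) / N * (t' - t)), Finset.sum_add_distrib, Finset.sum_const,
    Finset.card_range, nsmul_eq_mul, ← Finset.sum_mul, ← Finset.sum_div]
  have e1 : 2 * ((s : ℝ) * ((N : ℝ) * t + (∑ k ∈ Finset.range N, (k : ℝ)) / N * (t' - t))) =
      s * (2 * (N * t) + (2 * ∑ k ∈ Finset.range N, (k : ℝ)) / N * (t' - t)) := by ring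
  rw [e1, sum_k]
  field_simp
  ring

lemma block_ta (n b s o : ℕ) (hs : 0 < s) (hN : 0 < n / 120)
    (h : ∀ x < s * (n / 120), (loc n (o * (n / 120) + x)).1 = b ∧
      (loc n (o * (n / 120) + x)).2.1 = x / s) :
    2 * ∑ x ∈ Finset.range (s * (n / 120)), ta n (loc n (o * (n / 120) + x)).1
      (loc n (o * (n / 120) + x)).2.1 =
      (n / 120 : ℕ) * Real.log 2 * (s * ((n / 120 : ℕ) * ((tG b : ℝ) + tG (b + 1)) - ((tG (b + 1) : ℝ) - tG b))) := by
  have e : ∀ x ∈ Finset.range (s * (n / 120)), ta n (loc n (o * (n / 120) + x)).1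
      (loc n (o * (n / 120) + x)).2.1 = (n / 120 : ℕ) * Real.log 2 *
        ((tG b : ℝ) + ((x / s : ℕ) : ℝ) / ((n / 120 : ℕ) : ℝ) * ((tG (b + 1) : ℝ) - tG b)) := by
    intro x hx
    rw [Finset.mem_range] at hx
    rw [(h x hx).1, (h x hx).2]
    rfl
  rw [Finset.sum_congr rfl e, ← Finset.mul_sum, ← block s hs (n / 120) hN]
  ring

lemma sum_ta {n : ℕ} (hN : 0 < n / 120) :
    ∑ i ∈ Finset.range (240 * (n / 120)), ta n (loc n i).1 (loc n i).2.1 =
      (74428 * (n / 120 : ℕ) - 134) * ((n / 120 : ℕ) * Real.log 2) := by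
  have e : 240 * (n / 120) = 12 * (n / 120) + 20 * (n / 120) + 22 * (n / 120) + 18 * (n / 120) + 24 * (n / 120) + 20 * (n / 120) + 22 * (n / 120) + 38 * (n / 120) + 64 * (n / 120) := by ring
  have a1 : 12 * (n / 120) + 20 * (n / 120) = 32 * (n / 120) := by ring
  have a2 : 32 * (n / 120) + 22 * (n / 120) = 54 * (n / 120) := by ring
  have a3 : 54 * (n / 120) + 18 * (n / 120) = 72 * (n / 120) := by ring
  have a4 : 72 * (n / 120) + 24 * (n / 120) = 96 * (n / 120) := by ring
  have a5 : 96 * (n / 120) + 20 * (n / 120) = 116 * (n / 120) := by ring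
  have a6 : 116 * (n / 120) + 22 * (n / 120) = 138 * (n / 120) := by ring
  have a7 : 138 * (n / 120) + 38 * (n / 120) = 176 * (n / 120) := by ring
  rw [e, Finset.sum_range_add, Finset.sum_range_add, Finset.sum_range_add, Finset.sum_range_add, Finset.sum_range_add, Finset.sum_range_add, Finset.sum_range_add, Finset.sum_range_add]
  rw [a1, a2, a3, a4, a5, a6, a7]
  have h0 := block_ta n 0 12 0 (by norm_num) hN (by
    intro x hx
    have : 0 * (n / 120) + x = x := by ring
    rw [this]
    unfold loc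
    rw [if_pos (by omega)]
    exact ⟨rfl, rfl⟩)
  have h1 := block_ta n 1 20 12 (by norm_num) hN (by
    intro x hx
    unfold loc
    rw [if_neg (by omega), if_pos (by omega)]
    refine ⟨rfl, ?_⟩
    simp only
    congr 1; omega)
  have h2 := block_ta n 2 22 32 (by norm_num) hN (by
    intro x hx
    unfold loc
    rw [if_neg (by omega), if_neg (by omega), if_pos (by omega)]
    refine ⟨rfl, ?_⟩
    simp only
    congr 1; omega)
  have h3 := block_ta n 3 18 54 (by norm_num) hN (by
    intro x hx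
    unfold loc
    rw [if_neg (by omega), if_neg (by omega), if_neg (by omega), if_pos (by omega)]
    refine ⟨rfl, ?_⟩
    simp only
    congr 1; omega)
  have h4 := block_ta n 4 24 72 (by norm_num) hN (by
    intro x hx
    unfold loc
    rw [if_neg (by omega), if_neg (by omega), if_neg (by omega), if_neg (by omega), if_pos (by omega)]
    refine ⟨rfl, ?_⟩
    simp only
    congr 1; omega)
  have h5 := block_ta n 5 20 96 (by norm_num) hN (by
    intro x hx
    unfold loc
    rw [if_neg (by omega), if_neg (by omega), if_neg (by omega), if_neg (by omega), if_neg (by omega), if_pos (by omega)]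
    refine ⟨rfl, ?_⟩
    simp only
    congr 1; omega)
  have h6 := block_ta n 6 22 116 (by norm_num) hN (by
    intro x hx
    unfold loc
    rw [if_neg (by omega), if_neg (by omega), if_neg (by omega), if_neg (by omega), if_neg (by omega), if_neg (by omega), if_pos (by omega)]
    refine ⟨rfl, ?_⟩
    simp only
    congr 1; omega)
  have h7 := block_ta n 7 38 138 (by norm_num) hN (by
    intro x hx
    unfold loc
    rw [if_neg (by omega), if_neg (by omega), if_neg (by omega), if_neg (by omega), if_neg (by omega), if_neg (by omega), if_neg (by omega), if_pos (by omega)]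
    refine ⟨rfl, ?_⟩
    simp only
    congr 1; omega)
  have h8 := block_ta n 8 64 176 (by norm_num) hN (by
    intro x hx
    unfold loc
    rw [if_neg (by omega), if_neg (by omega), if_neg (by omega), if_neg (by omega), if_neg (by omega), if_neg (by omega), if_neg (by omega), if_neg (by omega), if_pos (by omega)]
    refine ⟨rfl, ?_⟩
    simp only
    congr 1; omega)
  simp only [zero_mul, zero_add] at h0
  have t0 : tG 0 = 0 := rfl
  have t1 : tG 1 = 85 := rfl
  have t2 : tG 2 = 182 := rfl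
  have t3 : tG 3 = 264 := rfl
  have t4 : tG 4 = 319 := rfl
  have t5 : tG 5 = 381 := rfl
  have t6 : tG 6 = 424 := rfl
  have t7 : tG 7 = 411 := rfl
  have t8 : tG 8 = 369 := rfl
  have t9 : tG 9 = 276 := rfl
  norm_num only [t0, t1, t2, t3, t4, t5, t6, t7, t8, t9, Nat.cast_ofNat, Nat.cast_zero] at h0 h1 h2 h3 h4 h5 h6 h7 h8
  linarith only [h0, h1, h2, h3, h4, h5, h6, h7, h8]

lemma sum_al {C : ℝ} {K n : ℕ} (hN : 0 < n / 120) :
    ∑ i ∈ Finset.range (2 * n), al C K n (loc n i).1 (loc n i).2.1 ≤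
      2 * n * (Real.log C + K * Real.log n + n * PhiG) +
      4 * (n : ℝ) ^ 2 * Real.log n - (74428 * (n / 120 : ℕ) - 134) * ((n / 120 : ℕ) * Real.log 2) := by
  have h1 : ∀ i ∈ Finset.range (2 * n), al C K n (loc n i).1 (loc n i).2.1 ≤
      (Real.log C + K * Real.log n + n * PhiG) + 2 * (i : ℝ) * Real.log n -
      ta n (loc n i).1 (loc n i).2.1 := by
    intro i _
    exact al_le hN
  have h2 := Finset.sum_le_sum h1
  rw [Finset.sum_sub_distrib, Finset.sum_add_distrib, Finset.sum_const, Finset.card_range,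
    nsmul_eq_mul] at h2
  have h4 : (74428 * (n / 120 : ℕ) - 134) * ((n / 120 : ℕ) * Real.log 2) ≤
      ∑ i ∈ Finset.range (2 * n), ta n (loc n i).1 (loc n i).2.1 := by
    rw [← sum_ta hN]
    apply Finset.sum_le_sum_of_subset_of_nonneg
    · intro i hi
      rw [Finset.mem_range] at hi ⊢
      omega
    · intro i _ hi
      rw [Finset.mem_range] at hi
      apply ta_nonneg
      unfold loc
      rw [if_neg (by omega), if_neg (by omega), if_neg (by omega), if_neg (by omega),
        if_neg (by omega), if_neg (by omega), if_neg (by omega), if_neg (by omega),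
        if_neg (by omega)]
      simp [tG]
  have hl : 0 ≤ Real.log n := Real.log_natCast_nonneg n
  have h3 : ∑ i ∈ Finset.range (2 * n), 2 * (i : ℝ) * Real.log n ≤
      4 * (n : ℝ) ^ 2 * Real.log n := by
    have e1 : ∑ i ∈ Finset.range (2 * n), 2 * (i : ℝ) * Real.log n =
        (2 * ∑ i ∈ Finset.range (2 * n), (i : ℝ)) * Real.log n := by
      rw [← Finset.sum_mul, ← Finset.mul_sum]
    rw [e1, sum_k]
    apply mul_le_mul_of_nonneg_right _ hl
    push_cast
    have : (0 : ℝ) ≤ (n : ℝ) := by positivity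
    nlinarith
  push_cast at h2
  linarith

lemma final_ev (c : ℝ) (K : ℕ) (ε : ℝ) (hε : 0 < ε) :
    ∀ᶠ n : ℕ in atTop, 4 * (n : ℝ) * (c + K * Real.log n) ≤ ε * (n : ℝ) ^ 2 := by
  have h1 : Tendsto (fun n : ℕ => Real.log (n : ℝ) / n) atTop (𝓝 0) := by
    have := Real.isLittleO_log_id_atTop.tendsto_div_nhds_zero
    exact this.comp tendsto_natCast_atTop_atTop
  have h2 : Tendsto (fun n : ℕ => c / (n : ℝ)) atTop (𝓝 0) := tendsto_const_div_atTop_nhds_zero_nat c
  have h3 : Tendsto (fun n : ℕ => 4 * (c / (n : ℝ) + K * (Real.log (n : ℝ) / n))) atTop (𝓝 0) := by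
    have := (h2.add (h1.const_mul (K : ℝ))).const_mul 4
    simpa using this
  have h4 := h3.eventually (gt_mem_nhds hε)
  filter_upwards [h4, eventually_gt_atTop 0] with n hn hn0
  have hn' : (0 : ℝ) < n := by exact_mod_cast hn0
  have e : 4 * (n : ℝ) * (c + K * Real.log n) = 4 * (c / (n : ℝ) + K * (Real.log (n : ℝ) / n)) * (n : ℝ) ^ 2 := by
    field_simp
  rw [e]
  exact mul_le_mul_of_nonneg_right hn.le (by positivity)

/-- Part G4e. -/
theorem G4e : StG4e := by
  intro C K hC ε hε
  filter_upwards [final_ev (|Real.log C| + 308) K ε hε, eventually_ge_atTop 120] with n hn hn120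
  have hN : 0 < n / 120 := by omega
  have h := sum_al (C := C) (K := K) hN
  refine h.trans ?_
  have hl2 : 0 ≤ Real.log 2 := Real.log_nonneg (by norm_num)
  have hl2' : Real.log 2 ≤ 1 := by
    have := Real.log_two_lt_d9
    linarith
  have hn0 : (120 : ℝ) ≤ n := by exact_mod_cast hn120
  have b1 : (n : ℝ) - 119 ≤ 120 * ((n / 120 : ℕ) : ℝ) := by
    have : n ≤ 120 * (n / 120) + 119 := by omega
    have h' : (n : ℝ) ≤ ((120 * (n / 120) + 119 : ℕ) : ℝ) := by exact_mod_cast this
    push_cast at h'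
    linarith
  have b2 : 120 * ((n / 120 : ℕ) : ℝ) ≤ n := by
    have : 120 * (n / 120) ≤ n := by omega
    have h' : ((120 * (n / 120) : ℕ) : ℝ) ≤ (n : ℝ) := by exact_mod_cast this
    push_cast at h'
    linarith
  generalize ((n / 120 : ℕ) : ℝ) = N at b1 b2 ⊢
  have c1 : 74428 / 14400 * (n : ℝ) ^ 2 - 1232 * n ≤ (74428 * N - 134) * N := by
    have d1 : ((n : ℝ) - 119) ^ 2 ≤ (120 * N) ^ 2 := pow_le_pow_left₀ (by linarith) b1 2
    nlinarith
  have c2 : (74428 / 14400 * (n : ℝ) ^ 2 - 1232 * n) * Real.log 2 ≤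
      (74428 * N - 134) * N * Real.log 2 := mul_le_mul_of_nonneg_right c1 hl2
  have c3 : 1232 * (n : ℝ) * Real.log 2 ≤ 1232 * n := by
    have : 0 ≤ 1232 * (n : ℝ) := by linarith
    nlinarith
  have c4 : 2 * (n : ℝ) * Real.log C ≤ 4 * n * |Real.log C| := by
    have h1 : Real.log C ≤ |Real.log C| := le_abs_self _
    have h2 : 0 ≤ |Real.log C| := abs_nonneg _
    nlinarith
  have c5 : 0 ≤ 2 * (n : ℝ) * (K * Real.log n) := by
    have hl : 0 ≤ Real.log n := Real.log_natCast_nonneg n
    positivity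
  nlinarith only [hn, c2, c3, c4, c5]

end

end Pool.Agent.TH511.Z3
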